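import Pool.Agent.LibOrb34.Base

/-!
Algebra for the independence theorem.
-/

open scoped Classical
open Polynomial
open OnePoint (infty)

namespace Pool.Agent.LibOrb34

section alg

variable {k : Type} [Field k]

/-- the coefficients of the six linear forms of `f(s x) (c x + d) ^ 6` -/
def lc (a b c d : k) (e : Fin 5 → k) : Option (Fin 5) → k × k
  | none => (c, d)
  | some j => (a - e j * c, b - e j * d)

/-- the linear form -/
noncomputable def lf (p : k × k) : k[X] := C p.1 * X + C p.2

theorem eval_lf (p : k × k) (x : k) : (lf p).eval x = p.1 * x + p.2 := by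
  simp [lf]

theorem prod_lc (a b c d : k) (e : Fin 5 → k) {x : k} (hx : c * x + d ≠ 0) :
    (∏ j, ((a * x + b) / (c * x + d) - e j)) * (c * x + d) ^ 6 =
      ∏ m, (lf (lc a b c d e m)).eval x := by
  rw [Fintype.prod_option]
  simp only [eval_lf, lc]
  have h1 : ∀ j : Fin 5, (a * x + b) / (c * x + d) - e j =
      ((a - e j * c) * x + (b - e j * d)) / (c * x + d) := by
    intro j
    rw [div_sub' hx]
    congr 1
    ring
  rw [Finset.prod_congr rfl fun j _ => h1 j, Finset.prod_div_distrib, Finset.prod_const,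
    Finset.card_univ, Fintype.card_fin]
  generalize (∏ j, ((a - e j * c) * x + (b - e j * d))) = q
  field_simp

/-- a product of linear forms with a simple root -/
theorem simple_root {ι : Type} [Fintype ι] (L L' : ι → k × k) (m₀ : ι) (ρ : k)
    (h0 : (L m₀).1 ≠ 0) (h1 : (L m₀).1 * ρ + (L m₀).2 = 0)
    (h2 : ∀ m, m ≠ m₀ → (L m).1 * ρ + (L m).2 ≠ 0) (h3 : ∀ m, (L' m).1 * ρ + (L' m).2 ≠ 0) :
    ∃ g : k[X], g.eval ρ ≠ 0 ∧ ∀ x, (x - ρ) * g.eval x =
      (∏ m, (lf (L m)).eval x) * ∏ m, (lf (L' m)).eval x := by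
  refine ⟨C (L m₀).1 * (∏ m ∈ Finset.univ.erase m₀, lf (L m)) * ∏ m, lf (L' m), ?_, fun x => ?_⟩
  · rw [eval_mul, eval_mul, eval_C, eval_prod, eval_prod]
    refine mul_ne_zero (mul_ne_zero h0 ?_) ?_
    · rw [Finset.prod_ne_zero_iff]
      intro m hm
      rw [eval_lf]
      exact h2 m (Finset.ne_of_mem_erase hm)
    · rw [Finset.prod_ne_zero_iff]
      intro m _
      rw [eval_lf]
      exact h3 m
  · rw [eval_mul, eval_mul, eval_C, eval_prod, eval_prod,
      ← Finset.mul_prod_erase Finset.univ (fun m => (lf (L m)).eval x) (Finset.mem_univ m₀), eval_lf]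
    have h4 : (L m₀).1 * x + (L m₀).2 = (L m₀).1 * (x - ρ) := by linear_combination h1
    rw [h4]
    ring

/-- the branch point of an index -/
def pt (e : Fin 5 → k) : Option (Fin 5) → OnePoint k
  | none => infty
  | some j => ((e j : k) : OnePoint k)

theorem pt_injective {e : Fin 5 → k} (he : Function.Injective e) : Function.Injective (pt e) := by
  intro m m' h
  rcases m with _ | i <;> rcases m' with _ | j
  · rfl
  · exact absurd h.symm (OnePoint.coe_ne_infty _)
  · exact absurd h (OnePoint.coe_ne_infty _)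
  · rw [he (coe_inj'.1 h)]

/-- zeros of the linear forms -/
theorem lc_zero_iff (s : GL (Fin 2) k) (e : Fin 5 → k) (m : Option (Fin 5)) (x : k) :
    (lc (s 0 0) (s 0 1) (s 1 0) (s 1 1) e m).1 * x + (lc (s 0 0) (s 0 1) (s 1 0) (s 1 1) e m).2 = 0 ↔
      mob s (x : OnePoint k) = pt e m := by
  rw [mob_coe]
  have hdet : s 0 0 * s 1 1 - s 0 1 * s 1 0 ≠ 0 := by
    have := s.det_ne_zero
    rwa [Matrix.det_fin_two] at this
  rcases m with _ | j
  · show s 1 0 * x + s 1 1 = 0 ↔ _ = infty
    by_cases h : s 1 0 * x + s 1 1 = 0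
    · rw [if_pos h]; simp [h]
    · rw [if_neg h]
      exact ⟨fun h' => absurd h' h, fun h' => absurd h' (OnePoint.coe_ne_infty _)⟩
  · show (s 0 0 - e j * s 1 0) * x + (s 0 1 - e j * s 1 1) = 0 ↔ _ = ((e j : k) : OnePoint k)
    by_cases h : s 1 0 * x + s 1 1 = 0
    · rw [if_pos h]
      constructor
      · intro h'
        exfalso
        have h1 : s 0 0 * x + s 0 1 = 0 := by linear_combination h' + e j * h
        by_cases hx : s 1 0 = 0
        · rw [hx] at h hdet
          have : s 1 1 = 0 := by linear_combination h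
          rw [this] at hdet
          exact hdet (by ring)
        · apply hdet
          have h2 : s 1 0 * (s 0 0 * s 1 1 - s 0 1 * s 1 0) = 0 := by
            linear_combination (s 1 0 * s 0 0) * h - s 1 0 ^ 2 * h1
          exact (mul_eq_zero.1 h2).resolve_left hx
      · intro h'
        exact absurd h'.symm (OnePoint.coe_ne_infty _)
    · rw [if_neg h, coe_inj', div_eq_iff h]
      constructor <;> intro h' <;> linear_combination h'

theorem lc_fst_ne (s : GL (Fin 2) k) (e : Fin 5 → k) (m : Option (Fin 5)) {x : k}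
    (h : mob s (x : OnePoint k) = pt e m) : (lc (s 0 0) (s 0 1) (s 1 0) (s 1 1) e m).1 ≠ 0 := by
  intro h0
  have h1 := (lc_zero_iff s e m x).2 h
  rw [h0, zero_mul, zero_add] at h1
  have h2 : mob s ((x + 1 : k) : OnePoint k) = pt e m := by
    rw [← lc_zero_iff, h0, h1]
    ring
  have h3 := coe_inj'.1 (mob_injective s (h2.trans h.symm))
  exact one_ne_zero (add_eq_left.1 h3)

end alg

section roots

variable {k : Type} [Field k] [CharZero k] [IsAlgClosed k]

theorem exists_roots (f : k[X]) [Pool.Agent.LibJac77.Genus2 f] :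
    ∃ e : Fin 5 → k, Function.Injective e ∧ f = ∏ i, (X - C (e i)) := by
  have hm : f.Monic := Pool.Agent.LibJac77.Genus2.monic
  have hd : f.natDegree = 5 := Pool.Agent.LibJac77.Genus2.deg
  have hsp := IsAlgClosed.splits f
  have hcard : Multiset.card f.roots = 5 := by rw [← hd]; exact hsp.natDegree_eq_card_roots.symm
  have hsep : f.Separable := (PerfectField.separable_iff_squarefree).2 Pool.Agent.LibJac77.Genus2.sqf
  have hnd : f.roots.Nodup := nodup_roots hsep
  have hcardF : f.roots.toFinset.card = 5 := by rw [Multiset.toFinset_card_of_nodup hnd, hcard]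
  let E := f.roots.toFinset.equivFinOfCardEq hcardF
  refine ⟨fun i => (E.symm i : k), fun i j h => E.symm.injective (Subtype.ext h), ?_⟩
  have h1 : f = (f.roots.map fun a => X - C a).prod := hsp.eq_prod_roots_of_monic hm
  have h2 : (f.roots.map fun a => X - C a).prod = ∏ a ∈ f.roots.toFinset, (X - C a) := by
    rw [Finset.prod, Multiset.toFinset_val, Multiset.dedup_eq_self.2 hnd]
  rw [h2] at h1
  conv_lhs => rw [h1]
  rw [← Finset.prod_coe_sort]
  exact (Equiv.prod_comp E.symm (fun a : f.roots.toFinset => X - C (a : k))).symm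

theorem eval_of_prod {f : k[X]} {e : Fin 5 → k} (hf : f = ∏ i, (X - C (e i))) (x : k) :
    f.eval x = ∏ i, (x - e i) := by
  rw [hf, eval_prod]
  simp

theorem mem_Br_iff_pt {f : k[X]} {e : Fin 5 → k} (hf : f = ∏ i, (X - C (e i))) (z : OnePoint k) :
    z ∈ Br f ↔ ∃ m, z = pt e m := by
  constructor
  · rintro (h | ⟨x, rfl, hx⟩)
    · exact ⟨none, h⟩
    · rw [eval_of_prod hf, Finset.prod_eq_zero_iff] at hx
      obtain ⟨j, _, hj⟩ := hx
      exact ⟨some j, by rw [sub_eq_zero.1 hj]; rfl⟩
  · rintro ⟨m, rfl⟩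
    rcases m with _ | j
    · exact mem_Br_infty f
    · show ((e j : k) : OnePoint k) ∈ Br f
      rw [mem_Br_coe, eval_of_prod hf]
      exact Finset.prod_eq_zero (Finset.mem_univ j) (sub_self _)

theorem finite_Br (f : k[X]) [Pool.Agent.LibJac77.Genus2 f] : (Br f).Finite := by
  obtain ⟨e, _, hf⟩ := exists_roots f
  refine (Set.finite_range (pt e)).subset ?_
  intro z hz
  obtain ⟨m, rfl⟩ := (mem_Br_iff_pt hf z).1 hz
  exact ⟨m, rfl⟩

/-- two different preimages of the branch points differ at a finite point -/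
theorem exists_finite_diff (f : k[X]) [Pool.Agent.LibJac77.Genus2 f] (s t : GL (Fin 2) k)
    (h : {z | mob s z ∈ Br f} ≠ {z | mob t z ∈ Br f}) :
    ∃ x : k, (mob s (x : OnePoint k) ∈ Br f ∧ mob t (x : OnePoint k) ∉ Br f) ∨
      (mob s (x : OnePoint k) ∉ Br f ∧ mob t (x : OnePoint k) ∈ Br f) := by
  by_contra hcon
  push Not at hcon
  have hfin : ∀ s : GL (Fin 2) k, {z | mob s z ∈ Br f}.Finite := fun s =>
    (finite_Br f).preimage (mob_injective s).injOn
  have hcard : ∀ s : GL (Fin 2) k, {z | mob s z ∈ Br f}.ncard = (Br f).ncard := by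
    intro s
    have h1 : mob s '' {z | mob s z ∈ Br f} = Br f := by
      ext z
      constructor
      · rintro ⟨z', hz', rfl⟩
        exact hz'
      · intro hz
        exact ⟨mob s⁻¹ z, by show mob s (mob s⁻¹ z) ∈ Br f; rw [mob_mob_inv]; exact hz, mob_mob_inv s z⟩
    rw [← h1, Set.ncard_image_of_injective _ (mob_injective s), h1]
  have key : ∀ s t : GL (Fin 2) k, (∀ x : k, mob s (x : OnePoint k) ∈ Br f →
      mob t (x : OnePoint k) ∈ Br f) → (∀ x : k, mob t (x : OnePoint k) ∈ Br f →
      mob s (x : OnePoint k) ∈ Br f) → mob s infty ∈ Br f → mob t infty ∈ Br f := by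
    intro s t h1 h2 h3
    by_contra h4
    have h5 : {z | mob t z ∈ Br f} ⊆ {z | mob s z ∈ Br f} \ {infty} := by
      intro z hz
      by_cases h0 : z = infty
      · subst h0; exact absurd hz h4
      · obtain ⟨x, rfl⟩ := exists_coe h0
        exact ⟨h2 x hz, OnePoint.coe_ne_infty x⟩
    have h6 := Set.ncard_le_ncard h5 ((hfin s).subset Set.sdiff_subset)
    have h8 : (infty : OnePoint k) ∈ {z | mob s z ∈ Br f} := h3
    rw [Set.ncard_sdiff_singleton_of_mem h8, hcard, hcard] at h6
    have h7 : 0 < (Br f).ncard := by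
      rw [← hcard s]
      exact (Set.ncard_pos (hfin s)).2 ⟨infty, h3⟩
    omega
  apply h
  have h1 : ∀ x : k, mob s (x : OnePoint k) ∈ Br f → mob t (x : OnePoint k) ∈ Br f :=
    fun x => (hcon x).1
  have h2 : ∀ x : k, mob t (x : OnePoint k) ∈ Br f → mob s (x : OnePoint k) ∈ Br f := by
    intro x hx
    by_contra h3
    exact (hcon x).2 h3 hx
  ext z
  by_cases h0 : z = infty
  · subst h0
    exact ⟨key s t h1 h2, key t s h2 h1⟩
  · obtain ⟨x, rfl⟩ := exists_coe h0
    exact ⟨h1 x, h2 x⟩

end roots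

end Pool.Agent.LibOrb34
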