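import Pool.Agent.LibOrb34.Base

/-!
R8. The dihedral group of order ten.
-/

open scoped Classical
open Polynomial
open OnePoint (infty)

namespace Pool.Agent.LibOrb34

variable {k : Type} [Field k]

/-- an invertible matrix from its entries -/
noncomputable def gl (a b c d : k) (h : a * d - b * c ≠ 0) : GL (Fin 2) k :=
  Matrix.GeneralLinearGroup.mkOfDetNeZero !![a, b; c, d] (by rwa [Matrix.det_fin_two_of])

theorem gl_infty (a b c d : k) (h : a * d - b * c ≠ 0) : mob (gl a b c d h) infty =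
    if c = 0 then infty else ((a / c : k) : OnePoint k) := by
  rw [mob_infty]; rfl

theorem gl_coe (a b c d : k) (h : a * d - b * c ≠ 0) (x : k) :
    mob (gl a b c d h) (x : OnePoint k) =
    if c * x + d = 0 then infty else (((a * x + b) / (c * x + d) : k) : OnePoint k) := by
  rw [mob_coe]; rfl

/-- fifth roots of unity -/
def A5 (k : Type) [Field k] : Set (OnePoint k) := {z | ∃ x : k, z = (x : OnePoint k) ∧ x ^ 5 = 1}

theorem mem_A5 {x : k} : ((x : k) : OnePoint k) ∈ A5 k ↔ x ^ 5 = 1 := by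
  constructor
  · rintro ⟨y, h, hy⟩
    rw [coe_inj'.1 h]; exact hy
  · intro h; exact ⟨x, rfl, h⟩

theorem infty_A5 : (infty : OnePoint k) ∉ A5 k := by
  rintro ⟨x, h, _⟩
  exact OnePoint.coe_ne_infty x h.symm

/-- the dihedral group -/
noncomputable def dg (ζ : k) (hζ : ζ ≠ 0) (q : Fin 2 × Fin 5) : GL (Fin 2) k :=
  if q.1 = 0 then gl (ζ ^ (q.2 : ℕ)) 0 0 1 (by simp [hζ])
  else gl 0 (ζ ^ (q.2 : ℕ)) 1 0 (by simp [hζ])

theorem dg_A5 {ζ : k} (hζ : ζ ≠ 0) (h5 : ζ ^ 5 = 1) (q : Fin 2 × Fin 5) (z : OnePoint k) :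
    mob (dg ζ hζ q) z ∈ A5 k ↔ z ∈ A5 k := by
  have hp : (ζ ^ (q.2 : ℕ)) ^ 5 = 1 := by rw [← pow_mul, mul_comm, pow_mul, h5, one_pow]
  have hp0 : ζ ^ (q.2 : ℕ) ≠ 0 := pow_ne_zero _ hζ
  unfold dg
  by_cases hq : q.1 = 0
  · rw [if_pos hq]
    by_cases hz : z = infty
    · subst hz
      rw [gl_infty, if_pos rfl]
    · obtain ⟨x, rfl⟩ := exists_coe hz
      rw [gl_coe, if_neg (by simp), mem_A5, mem_A5]
      have : (ζ ^ (q.2 : ℕ) * x + 0) / (0 * x + 1) = ζ ^ (q.2 : ℕ) * x := by ring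
      rw [this, mul_pow, hp, one_mul]
  · rw [if_neg hq]
    by_cases hz : z = infty
    · subst hz
      rw [gl_infty, if_neg one_ne_zero, mem_A5]
      constructor
      · intro h
        simp at h
      · intro h
        exact absurd h infty_A5
    · obtain ⟨x, rfl⟩ := exists_coe hz
      rw [gl_coe]
      by_cases hx : x = 0
      · subst hx
        rw [if_pos (by ring), mem_A5]
        constructor
        · intro h
          exact absurd h infty_A5
        · intro h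
          simp at h
      · rw [if_neg (by simpa using hx), mem_A5, mem_A5]
        have : (0 * x + ζ ^ (q.2 : ℕ)) / (1 * x + 0) = ζ ^ (q.2 : ℕ) / x := by ring
        rw [this, div_pow, hp, one_div, inv_eq_one]

/-- the preimages of `l` -/
noncomputable def dl (ζ l : k) (q : Fin 2 × Fin 5) : k :=
  if q.1 = 0 then l / ζ ^ (q.2 : ℕ) else ζ ^ (q.2 : ℕ) / l

theorem dg_dl {ζ l : k} (hζ : ζ ≠ 0) (hl : l ≠ 0) (q : Fin 2 × Fin 5) :
    mob (dg ζ hζ q) ((dl ζ l q : k) : OnePoint k) = (l : OnePoint k) := by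
  have hp0 : ζ ^ (q.2 : ℕ) ≠ 0 := pow_ne_zero _ hζ
  unfold dg dl
  by_cases hq : q.1 = 0
  · rw [if_pos hq, if_pos hq, gl_coe, if_neg (by simp), coe_inj']
    field_simp
    ring
  · rw [if_neg hq, if_neg hq, gl_coe, if_neg (by
      rw [one_mul, add_zero]; exact div_ne_zero hp0 hl), coe_inj']
    field_simp
    ring

theorem dl_injective {ζ l : k} (hζ : IsPrimitiveRoot ζ 5) (hl : l ≠ 0) (h10 : l ^ 10 ≠ 1) :
    Function.Injective (dl ζ l) := by
  have hζ0 : ζ ≠ 0 := hζ.ne_zero (by norm_num)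
  have key : ∀ i j : ℕ, l / ζ ^ i ≠ ζ ^ j / l := by
    intro i j h
    apply h10
    have h1 : l ^ 2 = ζ ^ (i + j) := by
      rw [div_eq_div_iff (pow_ne_zero _ hζ0) hl] at h
      rw [pow_add]
      linear_combination h
    have h2 : l ^ 10 = (ζ ^ 5) ^ (i + j) := by
      calc l ^ 10 = (l ^ 2) ^ 5 := by ring
        _ = (ζ ^ (i + j)) ^ 5 := by rw [h1]
        _ = (ζ ^ 5) ^ (i + j) := by rw [← pow_mul, ← pow_mul, mul_comm]
    rw [h2, hζ.pow_eq_one, one_pow]
  rintro ⟨a, i⟩ ⟨b, j⟩ h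
  unfold dl at h
  by_cases ha : a = 0 <;> by_cases hb : b = 0
  · subst ha hb
    rw [if_pos rfl, if_pos rfl, div_eq_div_iff (pow_ne_zero _ hζ0) (pow_ne_zero _ hζ0)] at h
    have h1 := hζ.pow_inj j.2 i.2 (mul_left_cancel₀ hl h)
    rw [Fin.ext h1]
  · rw [if_pos (show (a, i).1 = 0 from ha), if_neg (show ¬ (b, j).1 = 0 from hb)] at h
    exact absurd h (key _ _)
  · rw [if_neg (show ¬ (a, i).1 = 0 from ha), if_pos (show (b, j).1 = 0 from hb)] at h
    exact absurd h.symm (key _ _)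
  · have hab : a = b := by omega
    subst hab
    rw [if_neg (show ¬ (a, i).1 = 0 from ha), if_neg (show ¬ (a, j).1 = 0 from hb),
      div_left_inj' hl] at h
    have h1 := hζ.pow_inj i.2 j.2 h
    rw [Fin.ext h1]

theorem dihedral (f : k[X]) (ζ l : k) (hζ : IsPrimitiveRoot ζ 5) (h0 : l ≠ 0) (h1 : l ^ 10 ≠ 1)
    (hf : f = ∏ j : Fin 5, (X - C (1 / (ζ ^ (j : ℕ) - l)))) :
    ∃ s : Fin 10 → GL (Fin 2) k, Clique (Br f) s ∧ Distinct (Br f) s := by
  have hζ0 : ζ ≠ 0 := hζ.ne_zero (by norm_num)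
  have hl5 : l ^ 5 ≠ 1 := by
    intro h
    apply h1
    calc l ^ 10 = (l ^ 5) ^ 2 := by ring
      _ = 1 := by rw [h, one_pow]
  have hlA : ((l : k) : OnePoint k) ∉ A5 k := by rw [mem_A5]; exact hl5
  -- the map `1 / (x - l)`
  obtain ⟨H, hH⟩ : ∃ H : GL (Fin 2) k, ∀ z, mob H z ∈ Br f ↔ z ∈ A5 k ∨ z = (l : OnePoint k) := by
    refine ⟨gl 0 1 1 (-l) (by simp), fun z => ?_⟩
    by_cases hz : z = infty
    · subst hz
      rw [gl_infty, if_neg one_ne_zero, mem_Br_coe, hf, eval_prod, Finset.prod_eq_zero_iff]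
      constructor
      · rintro ⟨j, _, hj⟩
        rw [eval_sub, eval_X, eval_C, sub_eq_zero] at hj
        exfalso
        have h2 : ζ ^ (j : ℕ) - l ≠ 0 := by
          intro h
          apply hl5
          rw [← sub_eq_zero.1 h, ← pow_mul, mul_comm, pow_mul, hζ.pow_eq_one, one_pow]
        have h3 : (1 : k) / (ζ ^ (j : ℕ) - l) ≠ 0 := div_ne_zero one_ne_zero h2
        exact h3 (by rw [← hj]; simp)
      · rintro (h | h)
        · exact absurd h infty_A5
        · exact absurd h.symm (OnePoint.coe_ne_infty l)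
    · obtain ⟨x, rfl⟩ := exists_coe hz
      rw [gl_coe]
      by_cases hx : 1 * x + -l = 0
      · have hxl : x = l := by linear_combination hx
        rw [if_pos hx]
        exact ⟨fun _ => Or.inr (by rw [hxl]), fun _ => mem_Br_infty f⟩
      · have hx' : x - l ≠ 0 := by
          intro h; apply hx; linear_combination h
        have hne : ¬ ((x : k) : OnePoint k) = (l : OnePoint k) := by
          rw [coe_inj']
          intro h; exact hx' (sub_eq_zero.2 h)
        rw [if_neg hx, mem_Br_coe, hf, eval_prod, Finset.prod_eq_zero_iff, mem_A5]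
        constructor
        · rintro ⟨j, _, hj⟩
          rw [eval_sub, eval_X, eval_C, sub_eq_zero] at hj
          left
          have h2 : ζ ^ (j : ℕ) - l ≠ 0 := by
            intro h
            apply hl5
            rw [← sub_eq_zero.1 h, ← pow_mul, mul_comm, pow_mul, hζ.pow_eq_one, one_pow]
          have h3 : x = ζ ^ (j : ℕ) := by
            have h4 : (0 * x + 1) / (1 * x + -l) = 1 / (x - l) := by
              congr 1 <;> ring
            rw [h4, div_eq_div_iff hx' h2] at hj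
            linear_combination -hj
          rw [h3, ← pow_mul, mul_comm, pow_mul, hζ.pow_eq_one, one_pow]
        · rintro (h | h)
          · obtain ⟨i, hi, hix⟩ := hζ.eq_pow_of_pow_eq_one h
            refine ⟨⟨i, hi⟩, Finset.mem_univ _, ?_⟩
            rw [eval_sub, eval_X, eval_C, sub_eq_zero]
            show _ = 1 / (ζ ^ i - l)
            rw [hix]
            congr 1 <;> ring
          · exact absurd h hne
  have hHl : mob H (l : OnePoint k) ∈ Br f := (hH _).2 (Or.inr rfl)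
  -- the family
  let s' : Fin 2 × Fin 5 → GL (Fin 2) k := fun q => H * dg ζ hζ0 q * H⁻¹
  let E : Fin 10 ≃ Fin 2 × Fin 5 := (finProdFinEquiv (m := 2) (n := 5)).symm
  have hinfty : ∃ z₀, mob H z₀ = infty ∧ (z₀ ∈ A5 k ∨ z₀ = (l : OnePoint k)) :=
    ⟨mob H⁻¹ infty, mob_mob_inv H _, (hH _).1 (by rw [mob_mob_inv]; exact mem_Br_infty f)⟩
  have hdginv : ∀ q z, mob (dg ζ hζ0 q)⁻¹ z ∈ A5 k ↔ z ∈ A5 k := by
    intro q z
    rw [← dg_A5 hζ0 hζ.pow_eq_one q, mob_mob_inv]
  refine ⟨fun i => s' (E i), ?_, ?_⟩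
  · intro i j _
    left
    refine ⟨mob H (l : OnePoint k), hHl, fun z hz hzl => ?_⟩
    have h2 : mob H⁻¹ z ∈ A5 k := by
      rcases (hH (mob H⁻¹ z)).1 (by rw [mob_mob_inv]; exact hz) with h | h
      · exact h
      · exact absurd (by rw [← h, mob_mob_inv]) hzl
    have h3 : mob (s' (E i) * (s' (E j))⁻¹) z =
        mob H (mob (dg ζ hζ0 (E i)) (mob (dg ζ hζ0 (E j))⁻¹ (mob H⁻¹ z))) := by
      rw [← mob_mul, ← mob_mul, ← mob_mul]
      congr 1
      show H * dg ζ hζ0 (E i) * H⁻¹ * (H * dg ζ hζ0 (E j) * H⁻¹)⁻¹ = _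
      group
    rw [h3, hH]
    left
    rw [dg_A5 hζ0 hζ.pow_eq_one, hdginv]
    exact h2
  · intro i j hij heq
    have hij' : E i ≠ E j := fun h => hij (E.injective h)
    have h2 : mob H ((dl ζ l (E i) : k) : OnePoint k) ∈ {z | mob (s' (E i)) z ∈ Br f} := by
      show mob (H * dg ζ hζ0 (E i) * H⁻¹) _ ∈ Br f
      rw [mob_mul, mob_mul, mob_inv_mob, dg_dl hζ0 h0]
      exact hHl
    rw [heq] at h2
    have h3 : mob (H * dg ζ hζ0 (E j) * H⁻¹) (mob H ((dl ζ l (E i) : k) : OnePoint k)) ∈ Br f := h2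
    rw [mob_mul, mob_mul, mob_inv_mob, hH, dg_A5 hζ0 hζ.pow_eq_one] at h3
    rcases h3 with h3 | h3
    · rw [← dg_A5 hζ0 hζ.pow_eq_one (E i), dg_dl hζ0 h0] at h3
      exact hlA h3
    · rw [← dg_dl hζ0 h0 (E j)] at h3
      exact hij' (dl_injective hζ h0 h1 (coe_inj'.1 (mob_injective _ h3)))

end Pool.Agent.LibOrb34
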