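import Pool.Agent.LibOrb34.Base

/-!
R4 (helper34). Pair lemma, second kind, in the position where infinity is one of the four points.
-/

open scoped Classical
open Polynomial
open OnePoint (infty)

namespace Pool.Agent.LibOrb34

open Pool.Agent.LibBH2 Pool.Agent.LibQC8 Pool.Agent.LibLP34
open Pool.Agent.LibJac77 (Genus2 KC Pt vp)

variable {k : Type} [Field k]

/-- a quintic with three given roots -/
theorem exists_five [IsAlgClosed k] (f : k[X]) (hm : f.Monic) (hd : f.natDegree = 5) {a b c : k}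
    (ha : f.eval a = 0) (hb : f.eval b = 0) (hc : f.eval c = 0) (hab : a ≠ b) (hac : a ≠ c)
    (hbc : b ≠ c) :
    ∃ d g : k, f = (X - C a) * (X - C b) * (X - C c) * (X - C d) * (X - C g) := by
  have hf0 : f ≠ 0 := hm.ne_zero
  have hs := (IsAlgClosed.splits f).eq_prod_roots_of_monic hm
  have hcard : Multiset.card f.roots = 5 := by
    rw [← hd]; exact (IsAlgClosed.splits f).natDegree_eq_card_roots.symm
  have h1 : a ∈ f.roots := (mem_roots hf0).2 ha
  obtain ⟨m1, hm1⟩ := Multiset.exists_cons_of_mem h1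
  have h2 : b ∈ m1 := by
    have : b ∈ f.roots := (mem_roots hf0).2 hb
    rw [hm1, Multiset.mem_cons] at this
    exact this.resolve_left hab.symm
  obtain ⟨m2, hm2⟩ := Multiset.exists_cons_of_mem h2
  have h3 : c ∈ m2 := by
    have : c ∈ f.roots := (mem_roots hf0).2 hc
    rw [hm1, hm2, Multiset.mem_cons, Multiset.mem_cons] at this
    exact (this.resolve_left hac.symm).resolve_left hbc.symm
  obtain ⟨m3, hm3⟩ := Multiset.exists_cons_of_mem h3
  rw [hm1, hm2, hm3, Multiset.card_cons, Multiset.card_cons, Multiset.card_cons] at hcard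
  obtain ⟨d, g, hdg⟩ := Multiset.card_eq_two.1 (show Multiset.card m3 = 2 by omega)
  refine ⟨d, g, ?_⟩
  rw [hm1, hm2, hm3, hdg] at hs
  rw [hs]
  simp only [Multiset.insert_eq_cons, Multiset.map_cons, Multiset.prod_cons,
    Multiset.map_singleton, Multiset.prod_singleton]
  ring

variable [CharZero k] [IsAlgClosed k] {f : k[X]} [Genus2 f]

theorem good_inf₂ (s : GL (Fin 2) k) (b c d : OnePoint k) (hb : b ∈ Br f) (hc : c ∈ Br f)
    (hd : d ∈ Br f) (hb0 : b ≠ infty) (hc0 : c ≠ infty) (hd0 : d ≠ infty) (hbc : b ≠ c) (hbd : b ≠ d)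
    (hcd : c ≠ d) (h1 : mob s infty = b) (h2 : mob s b = infty) (h3 : mob s c = d)
    (P Q : Place k (KC f)) (z : OnePoint k) (hP : Over P z)
    (hQ : Over Q (mob s z)) : vv (ww f) P * vv (ww f) Q = 0 := by
  obtain ⟨b, rfl⟩ := exists_coe hb0
  obtain ⟨c, rfl⟩ := exists_coe hc0
  obtain ⟨d, rfl⟩ := exists_coe hd0
  rw [mem_Br_coe] at hb hc hd
  rw [Ne, coe_inj'] at hbc hbd hcd
  by_cases hz : z = infty
  · subst hz; rw [vv_infty hP, zero_mul]
  by_cases hz' : mob s z = infty
  · rw [hz'] at hQ; rw [vv_infty hQ, mul_zero]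
  obtain ⟨x, rfl⟩ := exists_coe hz
  -- the matrix
  rw [mob_infty] at h1
  have hs0 : s 1 0 ≠ 0 := by
    intro h0
    rw [if_pos h0] at h1
    exact OnePoint.coe_ne_infty b h1.symm
  rw [if_neg hs0, coe_inj'] at h1
  have e1 : s 0 0 = s 1 0 * b := by rw [← h1]; field_simp
  rw [mob_coe] at h2
  have e2 : s 1 1 = -(s 1 0 * b) := by
    by_contra hne
    rw [if_neg (fun h => hne (by linear_combination h))] at h2
    exact OnePoint.coe_ne_infty _ h2
  have key : ∀ {x y : k}, mob s (x : OnePoint k) = (y : OnePoint k) →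
      x - b ≠ 0 ∧ (x - b) * (y - b) = s 0 1 / s 1 0 + b ^ 2 := by
    intro x y h
    rw [mob_coe] at h
    have hx : s 1 0 * x + s 1 1 ≠ 0 := by
      intro h0
      rw [if_pos h0] at h
      exact OnePoint.coe_ne_infty _ h.symm
    rw [if_neg hx, coe_inj'] at h
    rw [e2] at hx h
    have hx' : x - b ≠ 0 := by
      intro h0
      apply hx
      linear_combination s 1 0 * h0
    refine ⟨hx', ?_⟩
    rw [div_eq_iff hx, e1] at h
    have h5 : s 1 0 * ((x - b) * (y - b)) = s 0 1 + s 1 0 * b ^ 2 := by linear_combination -h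
    field_simp
    linear_combination h5
  obtain ⟨_, k1⟩ := key h3
  obtain ⟨x', hx'⟩ := exists_coe hz'
  obtain ⟨_, k2⟩ := key hx'
  rw [hx'] at hQ
  obtain ⟨η, hη, rfl⟩ := over_coe' hP
  obtain ⟨η', hη', rfl⟩ := over_coe' hQ
  obtain ⟨e, g, hf⟩ := exists_five f Genus2.monic Genus2.deg hb hc hd hbc hbd hcd
  exact Pool.Agent.LibK4.pair hf hη hη' (k2.trans k1.symm)

end Pool.Agent.LibOrb34
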