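import Pool.Agent.LibOrb34.R2
import Pool.Agent.LibOrb34.R4

/-!
Reduction of the pair lemma for exchanged pairs of branch points to another model.
-/

open scoped Classical
open Polynomial
open OnePoint (infty)

namespace Pool.Agent.LibOrb34

open Pool.Agent.LibBH2 Pool.Agent.LibQC8 Pool.Agent.LibLP34
open Pool.Agent.LibJac77 (Genus2 KC Pt vp)

theorem pushPl_symm {k F F' : Type} [Field k] [Field F] [Algebra k F] [Field F'] [Algebra k F']
    (Φ : F' ≃ₐ[k] F) (v : Place k F) : pushPl Φ (pushPl Φ.symm v) = v := by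
  apply Place.ext'
  intro g
  show v.ord (Φ.symm.symm (Φ.symm g)) = v.ord g
  rw [AlgEquiv.symm_symm, Φ.apply_symm_apply]

theorem pushPl_symm' {k F F' : Type} [Field k] [Field F] [Algebra k F] [Field F'] [Algebra k F']
    (Φ : F' ≃ₐ[k] F) (v : Place k F') : pushPl Φ.symm (pushPl Φ v) = v := by
  apply Place.ext'
  intro g
  show v.ord (Φ.symm (Φ.symm.symm g)) = v.ord g
  rw [AlgEquiv.symm_symm, Φ.symm_apply_apply]

variable {k : Type} [Field k] [CharZero k] [IsAlgClosed k] {f : k[X]} [Genus2 f]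

/-- every place lies over a point -/
theorem exists_over (v : Place k (KC f)) : ∃ z, Over v z := by
  obtain ⟨P, rfl⟩ := Pool.Agent.LibJac77.exists_eq_vp v
  have hsp := Pool.Agent.LibJac77.sp_vp P
  match P, hsp with
  | .inf, hsp => exact ⟨infty, Or.inl ⟨rfl, hsp⟩⟩
  | .aff x y h, hsp => exact ⟨x, Or.inr ⟨x, rfl, hsp.1⟩⟩

/-- reduction of the pair lemma to another model -/
theorem transfer {b : k} (hb : f.eval b = 0) (s : GL (Fin 2) k)
    (hall : ∀ (f' : k[X]) (_ : Genus2 f') (g : GL (Fin 2) k),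
      mob g ((b : k) : OnePoint k) = infty → (∀ z, mob g z ∈ Br f' ↔ z ∈ Br f) →
      ∀ (P Q : Place k (KC f')) (z : OnePoint k), Over P z → Over Q (mob (g * s * g⁻¹) z) →
        vv (ww f') P * vv (ww f') Q = 0)
    (P Q : Place k (KC f)) (z : OnePoint k) (hP : Over P z) (hQ : Over Q (mob s z)) :
    vv (ww f) P * vv (ww f) Q = 0 := by
  obtain ⟨f', hf', g, Φ, hg, hB, hover⟩ := exists_model f b hb
  have h1 := hall f' hf' g hg hB (pushPl Φ.symm P) (pushPl Φ.symm Q) (mob g z) (hover P z hP) (by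
    have := hover Q _ hQ
    rwa [mob_mul, mob_mul, mob_inv_mob])
  have h2 := vv_transport Φ _ _ _ h1
  rw [pushPl_symm, pushPl_symm] at h2
  have hw : vv (ww f) (pushPl Φ (ww f')) = 0 := by
    obtain ⟨z₀, hz₀⟩ := exists_over (pushPl Φ (ww f'))
    have h3 := hover _ _ hz₀
    rw [pushPl_symm'] at h3
    have h4 : Over (ww f') infty := Or.inl ⟨rfl, Pool.Agent.LibJac77.sp_vp (.inf : Pt f')⟩
    have h5 := over_unique h3 h4
    have h6 : z₀ = (b : OnePoint k) := mob_injective g (h5.trans hg.symm)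
    rw [h6] at hz₀
    exact vv_branch (mem_Br_coe.2 hb) hz₀
  have hy : (y (pushPl Φ (ww f')) : Ch k (KC f)) = y (ww f) := by
    rw [vv] at hw
    exact sub_eq_zero.1 hw
  rw [vv, vv, hy] at h2
  exact h2

omit [CharZero k] [IsAlgClosed k] [Genus2 f] in
theorem mem_Br_iff {f' : k[X]} {g : GL (Fin 2) k} (hB : ∀ z, mob g z ∈ Br f' ↔ z ∈ Br f)
    (z : OnePoint k) : z ∈ Br f' ↔ mob g⁻¹ z ∈ Br f := by
  rw [← hB, mob_mob_inv]

/-- the points over `z` and `s z` are orthogonal if `s` exchanges two pairs of branch points -/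
theorem swap_pair (s : GL (Fin 2) k) {a b c d : OnePoint k} (ha : a ∈ Br f) (hb : b ∈ Br f)
    (hc : c ∈ Br f) (hd : d ∈ Br f) (hab : a ≠ b) (hac : a ≠ c) (had : a ≠ d) (hbc : b ≠ c)
    (hbd : b ≠ d) (hcd : c ≠ d) (h1 : mob s a = b) (h2 : mob s b = a) (h3 : mob s c = d)
    (P Q : Place k (KC f)) (z : OnePoint k) (hP : Over P z) (hQ : Over Q (mob s z)) :
    vv (ww f) P * vv (ww f) Q = 0 := by
  by_cases ha0 : a = infty
  · subst ha0
    exact good_inf₂ s b c d hb hc hd hab.symm hac.symm had.symm hbc hbd hcd h1 h2 h3 P Q z hP hQ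
  · obtain ⟨a, rfl⟩ := exists_coe ha0
    refine transfer (mem_Br_coe.1 ha) s (fun f' hf' g hg hB => ?_) P Q z hP hQ
    have hinj := mob_injective g
    have hconj : ∀ z, mob (g * s * g⁻¹) (mob g z) = mob g (mob s z) := fun z => by
      rw [mob_mul, mob_mul, mob_inv_mob]
    refine good_inf₂ _ (mob g b) (mob g c) (mob g d) ((hB b).2 hb) ((hB c).2 hc) ((hB d).2 hd)
      (fun h => hab (hinj (hg.trans h.symm))) (fun h => hac (hinj (hg.trans h.symm)))
      (fun h => had (hinj (hg.trans h.symm))) (fun h => hbc (hinj h)) (fun h => hbd (hinj h))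
      (fun h => hcd (hinj h)) ?_ ?_ ?_
    · rw [← hg, hconj, h1]
    · rw [hconj, h2, hg]
    · rw [hconj, h3]

end Pool.Agent.LibOrb34
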