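import Pool.Agent.LibLP34.Bridge

/-!
Moebius transformations and the branch points of a curve `y ^ 2 = f(x)` of genus two.
-/

open scoped Classical
open Polynomial
open OnePoint (infty)

namespace Pool.Agent.LibOrb34

open Pool.Agent.LibBH2 Pool.Agent.LibQC8 Pool.Agent.LibLP34
open Pool.Agent.LibJac77 (Genus2 KC)

variable {k : Type} [Field k]

/-- the Moebius transformation `x ↦ (a x + b) / (c x + d)` of the projective line of the matrix `s` -/
noncomputable def mob (s : GL (Fin 2) k) (z : OnePoint k) : OnePoint k := s • z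

/-- the six branch points of the curve `y ^ 2 = f(x)` in the projective line: infinity and the roots
of the quintic `f` -/
def Br (f : k[X]) : Set (OnePoint k) :=
  {z | z = infty ∨ ∃ x : k, z = ((x : k) : OnePoint k) ∧ f.eval x = 0}

/-- `s` maps at least five points of `B` to points of `B` (all but at most one), or interchanges the
points of two disjoint pairs of points of `B` -/
def Good (B : Set (OnePoint k)) (s : GL (Fin 2) k) : Prop :=
  (∃ b ∈ B, ∀ z ∈ B, z ≠ b → mob s z ∈ B) ∨
    ∃ a ∈ B, ∃ b ∈ B, ∃ c ∈ B, ∃ d ∈ B, a ≠ b ∧ a ≠ c ∧ a ≠ d ∧ b ≠ c ∧ b ≠ d ∧ c ≠ d ∧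
      mob s a = b ∧ mob s b = a ∧ mob s c = d ∧ mob s d = c

/-- the point `v` of the curve lies over the point `z` of the projective line -/
def Over {f : k[X]} [Genus2 f] (v : Place k (KC f)) (z : OnePoint k) : Prop :=
  (z = infty ∧ v.ord (algebraMap (RatFunc k) (KC f) RatFunc.X) < 0) ∨
    ∃ x : k, z = ((x : k) : OnePoint k) ∧
      v.Zer (algebraMap (RatFunc k) (KC f) RatFunc.X - algebraMap k (KC f) x)

/-- the family `s` is a clique for the set `B` of branch points -/
def Clique (B : Set (OnePoint k)) {n : ℕ} (s : Fin n → GL (Fin 2) k) : Prop :=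
  ∀ i j, i ≠ j → Good B (s i * (s j)⁻¹)

/-- the sets of branch points of the functions `f(s i x)` are pairwise different -/
def Distinct (B : Set (OnePoint k)) {n : ℕ} (s : Fin n → GL (Fin 2) k) : Prop :=
  ∀ i j, i ≠ j → {z | mob (s i) z ∈ B} ≠ {z | mob (s j) z ∈ B}

/-- the union of the saturated subgroups of the Jacobian generated by the classes `[P i - w]` for
points `P i` over `s i x`, where `s` is a clique and `x` a point of the projective line -/
def Orbits (f : k[X]) [Genus2 f] (w : Place k (KC f)) : Set (Pic0 k (KC f)) :=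
  {u | ∃ (n : ℕ) (s : Fin n → GL (Fin 2) k) (x : OnePoint k) (P : Fin n → Place k (KC f)),
    Clique (Br f) s ∧ (∀ i, Over (P i) (mob (s i) x)) ∧ u ∈ sat (Set.range fun i => cl w {P i})}

end Pool.Agent.LibOrb34
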