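import Pool.Agent.LibOrb34.R6a
import Pool.Agent.LibK4.B1
import Pool.Agent.LibK4.B2
import Pool.Agent.LibK4.B3
import Pool.Agent.LibLP34.Final

/-!
Independence of the points over the images of infinitely many points of the line.
-/

open scoped Classical
open Polynomial
open OnePoint (infty)

namespace Pool.Agent.LibOrb34

open Pool.Agent.LibBH2 Pool.Agent.LibQC8 Pool.Agent.LibLP34 Pool.Agent.LibK4
open Pool.Agent.LibJac77 (Genus2 KC Qb Pt vp jP RatF Bdd natDegree_le_of_orbit)

theorem map_lf {k K : Type} [Field k] [Field K] (φ : K →+* k) (a b c d : K) (e : Fin 5 → K)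
    (m : Option (Fin 5)) (x : K) : φ ((lf (lc a b c d e m)).eval x) =
      (lf (lc (φ a) (φ b) (φ c) (φ d) (fun j => φ (e j)) m)).eval (φ x) := by
  rcases m with _ | j
  · simp [lc, lf]
  · simp [lc, lf]

theorem indep_gen (f : Qb[X]) [Genus2 f] {n : ℕ} (s : Fin n → GL (Fin 2) Qb)
    (hs : Distinct (Br f) s) (S : Finset Qb) : ∃ x : Qb, x ∉ S ∧ ∀ P : Fin n → Place Qb (KC f),
      (∀ i, Over (P i) (mob (s i) ((x : Qb) : OnePoint Qb))) →
      LinearIndependent ℤ (fun i => cl (ww f) {P i}) := by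
  obtain ⟨e, he, hf⟩ := exists_roots f
  -- the number field
  let gens : (Fin 5) ⊕ (Fin n × Fin 2 × Fin 2) → Qb :=
    Sum.elim e (fun q => s q.1 q.2.1 q.2.2)
  set K : IntermediateField ℚ Qb := IntermediateField.adjoin ℚ (Set.range gens) with hK
  have hfin : FiniteDimensional ℚ K := by
    apply IntermediateField.finiteDimensional_adjoin
    intro z _
    exact ((AlgebraicClosure.isAlgebraic ℚ).isAlgebraic z).isIntegral
  have heK : ∀ i, e i ∈ K := fun i => IntermediateField.subset_adjoin _ _ ⟨Sum.inl i, rfl⟩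
  have hsK : ∀ i a b, s i a b ∈ K := fun i a b =>
    IntermediateField.subset_adjoin _ _ ⟨Sum.inr (i, a, b), rfl⟩
  let eK : Fin 5 → K := fun i => ⟨e i, heK i⟩
  let sK : Fin n → Fin 2 → Fin 2 → K := fun i a b => ⟨s i a b, hsK i a b⟩
  have hRat : RatF f K := by
    intro n
    have h1 : f = (∏ i, (X - C (eK i)) : K[X]).map (algebraMap K Qb) := by
      rw [Polynomial.map_prod]
      conv_lhs => rw [hf]
      refine Finset.prod_congr rfl fun i _ => ?_
      rw [Polynomial.map_sub, map_X, map_C]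
      rfl
    rw [h1, coeff_map]
    exact (_ : K).2
  have : NumberField K := by
    refine @NumberField.mk K _ inferInstance ?_
    convert hfin
  -- the linear forms over `K`
  let LK : Fin n → Option (Fin 5) → K × K := fun i =>
    lc (sK i 0 0) (sK i 0 1) (sK i 1 0) (sK i 1 1) eK
  let L : Fin n → Option (Fin 5) → Qb × Qb := fun i =>
    lc (s i 0 0) (s i 0 1) (s i 1 0) (s i 1 1) e
  have hL : ∀ i m, L i m = (((LK i m).1 : Qb), ((LK i m).2 : Qb)) := by
    intro i m
    rcases m with _ | j <;> rfl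
  have hroot : ∀ i j, i ≠ j → ∃ (ρ : K) (g : K[X]), g.eval ρ ≠ 0 ∧ ∀ x, (x - ρ) * g.eval x =
      (∏ m, (lf (LK i m)).eval x) * ∏ m, (lf (LK j m)).eval x := by
    have key : ∀ i j, (∃ x : Qb, mob (s i) (x : OnePoint Qb) ∈ Br f ∧
        mob (s j) (x : OnePoint Qb) ∉ Br f) → ∃ (ρ : K) (g : K[X]), g.eval ρ ≠ 0 ∧
        ∀ x, (x - ρ) * g.eval x =
          (∏ m, (lf (LK i m)).eval x) * ∏ m, (lf (LK j m)).eval x := by
      rintro i j ⟨x, h1, h2⟩
      obtain ⟨m₀, hm₀⟩ := (mem_Br_iff_pt hf _).1 h1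
      have h3 := lc_fst_ne (s i) e m₀ hm₀
      have h4 := (lc_zero_iff (s i) e m₀ x).2 hm₀
      have h3' : (LK i m₀).1 ≠ 0 := by
        intro h
        apply h3
        show (L i m₀).1 = 0
        rw [hL, h]
        rfl
      have hxK : x = ((-(LK i m₀).2 / (LK i m₀).1 : K) : Qb) := by
        have h5 : ((LK i m₀).1 : Qb) * x + (LK i m₀).2 = 0 := by
          have : (L i m₀).1 * x + (L i m₀).2 = 0 := h4
          rw [hL] at this
          exact this
        have h6 : ((LK i m₀).1 : Qb) ≠ 0 := by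
          intro h
          exact h3' (Subtype.ext h)
        have h7 : ((-(LK i m₀).2 / (LK i m₀).1 : K) : Qb) =
            -((LK i m₀).2 : Qb) / ((LK i m₀).1 : Qb) := by push_cast; rfl
        rw [h7, eq_div_iff h6]
        linear_combination h5
      set ρ : K := -(LK i m₀).2 / (LK i m₀).1 with hρ
      have hval : ∀ i m, (((LK i m).1 * ρ + (LK i m).2 : K) : Qb) = (L i m).1 * x + (L i m).2 := by
        intro i m
        rw [hL, hxK]
        push_cast
        rfl
      obtain ⟨g, hg⟩ := simple_root (LK i) (LK j) m₀ ρ h3' (by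
        rw [hρ]; field_simp; ring) (fun m hm h => by
          have h5 : (L i m).1 * x + (L i m).2 = 0 := by rw [← hval, h]; rfl
          have h6 := (lc_zero_iff (s i) e m x).1 h5
          exact hm (pt_injective he (h6.symm.trans hm₀))) (fun m h => by
          have h5 : (L j m).1 * x + (L j m).2 = 0 := by rw [← hval, h]; rfl
          have h6 := (lc_zero_iff (s j) e m x).1 h5
          exact h2 ((mem_Br_iff_pt hf _).2 ⟨m, h6⟩))
      exact ⟨ρ, g, hg⟩
    intro i j hij
    obtain ⟨x, h1 | h1⟩ := exists_finite_diff f (s i) (s j) (hs i j hij)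
    · exact key i j ⟨x, h1⟩
    · obtain ⟨ρ, g, hg, h⟩ := key j i ⟨x, h1.2, h1.1⟩
      exact ⟨ρ, g, hg, fun x => by rw [h, mul_comm]⟩
  -- torsion points
  have hT := finite_torsion f (2 * Module.finrank ℚ K)
  let TX : Set Qb := {ξ | ∃ (y : Qb) (h : y ^ 2 = f.eval ξ),
    Bdd (2 * Module.finrank ℚ K) (.aff ξ y h : Pt f) ∧ ∃ n : ℕ, n ≠ 0 ∧ n • jP (.aff ξ y h : Pt f) = 0}
  have hTX : TX.Finite := by
    refine (hT.image (fun P => match P with | .inf => 0 | .aff x _ _ => x)).subset ?_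
    rintro ξ ⟨y, h, h1, h2⟩
    exact ⟨.aff ξ y h, ⟨h1, h2⟩, rfl⟩
  have hbad : {x : Qb | ∃ i, mob (s i) (x : OnePoint Qb) ∈
      insert infty ((fun ξ : Qb => (ξ : OnePoint Qb)) '' TX)}.Finite := by
    have h1 : {x : Qb | ∃ i, mob (s i) (x : OnePoint Qb) ∈
        insert infty ((fun ξ : Qb => (ξ : OnePoint Qb)) '' TX)} = ⋃ i, {x : Qb |
          mob (s i) (x : OnePoint Qb) ∈ insert infty ((fun ξ : Qb => (ξ : OnePoint Qb)) '' TX)} := by
      ext x
      simp only [Set.mem_iUnion]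
      rfl
    rw [h1]
    refine Set.finite_iUnion fun i => ?_
    refine ((hTX.image _).insert _).preimage (f := fun x : Qb => mob (s i) (x : OnePoint Qb)) ?_
    exact ((mob_injective (s i)).comp (fun x y h => coe_inj'.1 h)).injOn
  -- choice of `x`
  have hroot' : ∀ q : Fin n × Fin n, ∃ (ρ : K) (g : K[X]), g.eval ρ ≠ 0 ∧ (q.1 ≠ q.2 →
      ∀ x, (x - ρ) * g.eval x =
        (∏ m, (lf (LK q.1 m)).eval x) * ∏ m, (lf (LK q.2 m)).eval x) := by
    intro q
    by_cases hq : q.1 = q.2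
    · exact ⟨0, 1, by simp, fun h => absurd hq h⟩
    · obtain ⟨ρ, g, h1, h2⟩ := hroot q.1 q.2 hq
      exact ⟨ρ, g, h1, fun _ => h2⟩
  choose ρ g hg hρg using hroot'
  obtain ⟨x, hxS, hx⟩ := exists_nonsquare K (n := n * n) (fun i => ρ (finProdFinEquiv.symm i))
    (fun i => g (finProdFinEquiv.symm i)) (fun i => hg _)
    ((S ∪ hbad.toFinset).preimage (Subtype.val : K → Qb) Subtype.val_injective.injOn)
  rw [Finset.mem_preimage, Finset.mem_union, not_or, Set.Finite.mem_toFinset] at hxS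
  obtain ⟨hxS, hxB⟩ := hxS
  have hbad' : ∀ i, mob (s i) ((x : Qb) : OnePoint Qb) ∉
      insert infty ((fun ξ : Qb => (ξ : OnePoint Qb)) '' TX) := fun i h => hxB ⟨i, h⟩
  refine ⟨x, hxS, fun P hP => ?_⟩
  have hden : ∀ i, s i 1 0 * (x : Qb) + s i 1 1 ≠ 0 := by
    intro i h
    apply hbad' i
    rw [mob_coe, if_pos h]
    exact Set.mem_insert _ _
  have hmob : ∀ i, mob (s i) ((x : Qb) : OnePoint Qb) =
      (((s i 0 0 * x + s i 0 1) / (s i 1 0 * x + s i 1 1) : Qb) : OnePoint Qb) := by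
    intro i
    rw [mob_coe, if_neg (hden i)]
  let ξK : Fin n → K := fun i => (sK i 0 0 * x + sK i 0 1) / (sK i 1 0 * x + sK i 1 1)
  have hξK : ∀ i, ((ξK i : K) : Qb) = (s i 0 0 * x + s i 0 1) / (s i 1 0 * x + s i 1 1) := by
    intro i
    show (((sK i 0 0 * x + sK i 0 1) / (sK i 1 0 * x + sK i 1 1) : K) : Qb) = _
    push_cast
    rfl
  have hP' : ∀ i, ∃ (η : Qb) (h : η ^ 2 = f.eval ((ξK i : K) : Qb)),
      P i = vp (.aff ((ξK i : K) : Qb) η h) := by
    intro i
    have h1 := hP i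
    rw [hmob, ← hξK] at h1
    exact over_coe' h1
  choose η hη hPη using hP'
  have hind : LinearIndependent ℤ (fun i => jP (.aff ((ξK i : K) : Qb) (η i) (hη i) : Pt f)) := by
    refine indep_of_nonsquare f K hRat (fun i => .aff ((ξK i : K) : Qb) (η i) (hη i))
      (fun i => ((ξK i : K) : Qb)) η hη (fun i => rfl) (fun i => (ξK i).2) ?_ ?_
    · intro i j hij hmem
      apply hx (finProdFinEquiv (i, j))
      rw [Equiv.symm_apply_apply, hρg (i, j) hij]
      refine ⟨⟨η i * η j, hmem⟩ * ((sK i 1 0 * x + sK i 1 1) ^ 3 *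
        (sK j 1 0 * x + sK j 1 1) ^ 3), ?_⟩
      apply Subtype.ext
      have hprod : ∀ i, ((∏ m, (lf (LK i m)).eval x : K) : Qb) =
          (η i) ^ 2 * (s i 1 0 * x + s i 1 1) ^ 6 := by
        intro i
        rw [hη i, eval_of_prod hf, hξK, prod_lc _ _ _ _ e (hden i)]
        have h1 := map_prod (algebraMap K Qb) (fun m => (lf (LK i m)).eval x) Finset.univ
        refine Eq.trans h1 ?_
        refine Finset.prod_congr rfl fun m _ => ?_
        exact map_lf (algebraMap K Qb) _ _ _ _ _ m x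
      show ((∏ m, (lf (LK i m)).eval x : K) : Qb) * ((∏ m, (lf (LK j m)).eval x : K) : Qb) =
        (η i * η j * (((s i 1 0 * x + s i 1 1) ^ 3 * (s j 1 0 * x + s j 1 1) ^ 3 : Qb))) *
        (η i * η j * (((s i 1 0 * x + s i 1 1) ^ 3 * (s j 1 0 * x + s j 1 1) ^ 3 : Qb)))
      rw [hprod, hprod]
      ring
    · intro i n hn h0
      apply hbad' i
      right
      refine ⟨((ξK i : K) : Qb), ?_, by rw [hmob, hξK]⟩
      refine ⟨η i, hη i, ⟨?_, ?_⟩, n, hn, h0⟩
      · refine natDegree_le_of_orbit K ((ξK i : K) : Qb) ((ξK i : K) : Qb)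
          fun σ hσ => Or.inl ⟨?_, ?_⟩
        · exact (IntermediateField.mem_fixingSubgroup_iff K σ).1 hσ _ (ξK i).2
        · exact (IntermediateField.mem_fixingSubgroup_iff K σ).1 hσ _ (ξK i).2
      · refine natDegree_le_of_orbit K (η i) (-η i) fun σ hσ => ?_
        have h1 : σ (η i) ^ 2 = η i ^ 2 := by
          rw [← map_pow, hη, eval_of_prod hf]
          have h2 : (∏ j, (((ξK i : K) : Qb) - e j)) = ((∏ j, (ξK i - eK j) : K) : Qb) := by
            have h3 := map_prod (algebraMap K Qb) (fun j => ξK i - eK j) Finset.univ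
            refine Eq.trans ?_ h3.symm
            refine Finset.prod_congr rfl fun j _ => ?_
            rw [map_sub]
            rfl
          rw [h2]
          exact (IntermediateField.mem_fixingSubgroup_iff K σ).1 hσ _ (_ : K).2
        rcases sq_eq_sq_iff_eq_or_eq_neg.1 h1 with h2 | h2
        · exact Or.inl ⟨h2, by rw [map_neg, h2]⟩
        · exact Or.inr ⟨h2, by rw [map_neg, h2, neg_neg]⟩
  have h5 := indep_ψ _ (fun i => jP_mem _) hind
  have h6 : (fun i => ψ f (jP (.aff ((ξK i : K) : Qb) (η i) (hη i) : Pt f))) =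
      fun i => cl (ww f) {P i} := by
    funext i
    rw [ψ_jP, hPη]
  rw [h6] at h5
  exact h5

end Pool.Agent.LibOrb34
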