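import Pool.Agent.LibOrb34.Defs
import Pool.Agent.LibK4.Clique

/-!
Basic facts on points over a point of the projective line.
-/

open scoped Classical
open Polynomial
open OnePoint (infty)

namespace Pool.Agent.LibOrb34

open Pool.Agent.LibBH2 Pool.Agent.LibQC8 Pool.Agent.LibLP34 Pool.Agent.LibK4
open Pool.Agent.LibJac77 (Genus2 KC DCf Pt vp)

variable {k : Type} [Field k]

theorem mob_mul (s t : GL (Fin 2) k) (z : OnePoint k) : mob (s * t) z = mob s (mob t z) :=
  mul_smul s t z

theorem mob_one (z : OnePoint k) : mob (1 : GL (Fin 2) k) z = z := one_smul _ z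

theorem mob_inv_mob (s : GL (Fin 2) k) (z : OnePoint k) : mob s⁻¹ (mob s z) = z :=
  inv_smul_smul s z

theorem mob_mob_inv (s : GL (Fin 2) k) (z : OnePoint k) : mob s (mob s⁻¹ z) = z :=
  smul_inv_smul s z

theorem mob_injective (s : GL (Fin 2) k) : Function.Injective (mob s) :=
  MulAction.injective s

theorem mob_infty (s : GL (Fin 2) k) : mob s infty =
    if s 1 0 = 0 then infty else ((s 0 0 / s 1 0 : k) : OnePoint k) :=
  OnePoint.smul_infty_eq_ite s

theorem mob_coe (s : GL (Fin 2) k) (x : k) : mob s (x : OnePoint k) =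
    if s 1 0 * x + s 1 1 = 0 then infty else
      (((s 0 0 * x + s 0 1) / (s 1 0 * x + s 1 1) : k) : OnePoint k) :=
  OnePoint.smul_some_eq_ite

theorem coe_inj' {x y : k} : ((x : k) : OnePoint k) = (y : OnePoint k) ↔ x = y := OnePoint.coe_eq_coe

theorem mem_Br_infty (f : k[X]) : (infty : OnePoint k) ∈ Br f := Or.inl rfl

theorem mem_Br_coe {f : k[X]} {x : k} : ((x : k) : OnePoint k) ∈ Br f ↔ f.eval x = 0 := by
  constructor
  · rintro (h | ⟨y, h, hy⟩)
    · exact absurd h (OnePoint.coe_ne_infty x)
    · rw [coe_inj'.1 h]; exact hy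
  · intro h
    exact Or.inr ⟨x, rfl, h⟩

theorem exists_coe {z : OnePoint k} (h : z ≠ infty) : ∃ x : k, z = (x : OnePoint k) := by
  obtain ⟨x, hx⟩ := OnePoint.ne_infty_iff_exists.1 h
  exact ⟨x, hx.symm⟩

variable [CharZero k] [IsAlgClosed k] {f : k[X]} [Genus2 f]

theorem over_infty {v : Place k (KC f)} (h : Over v infty) : v = ww f := by
  rcases h with ⟨_, h⟩ | ⟨x, h, _⟩
  · exact Pool.Agent.LibJac77.eq_vp (P := .inf) h
  · exact absurd h.symm (OnePoint.coe_ne_infty x)

theorem over_coe {v : Place k (KC f)} {x : k} (h : Over v ((x : k) : OnePoint k)) :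
    v.Zer (algebraMap (RatFunc k) (KC f) RatFunc.X - algebraMap k (KC f) x) := by
  rcases h with ⟨h, _⟩ | ⟨y, h, h'⟩
  · exact absurd h (OnePoint.coe_ne_infty x)
  · rw [coe_inj'.1 h]; exact h'

theorem over_coe' {v : Place k (KC f)} {x : k} (h : Over v ((x : k) : OnePoint k)) :
    ∃ (η : k) (hη : η ^ 2 = f.eval x), v = vp (.aff x η hη) := exists_aff v (over_coe h)

theorem vv_ww : vv (ww f) (ww f) = 0 := by rw [vv, sub_self]

/-- points over infinity give nothing -/
theorem vv_infty {v : Place k (KC f)} (h : Over v infty) : vv (ww f) v = 0 := by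
  rw [over_infty h, vv_ww]

/-- points over branch points give nothing -/
theorem vv_branch {v : Place k (KC f)} {z : OnePoint k} (hz : z ∈ Br f) (h : Over v z) :
    vv (ww f) v = 0 := by
  by_cases h0 : z = infty
  · subst h0; exact vv_infty h
  · obtain ⟨x, rfl⟩ := exists_coe h0
    obtain ⟨η, hη, rfl⟩ := over_coe' h
    rw [mem_Br_coe.1 hz] at hη
    have : η = 0 := pow_eq_zero_iff two_ne_zero |>.1 hη
    subst this
    exact vv_weier _

/-- every point lies over exactly one point of the line -/
theorem over_unique {v : Place k (KC f)} {z z' : OnePoint k} (h : Over v z) (h' : Over v z') :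
    z = z' := by
  by_cases h0 : z = infty
  · subst h0
    by_cases h1 : z' = infty
    · exact h1.symm
    · obtain ⟨x, rfl⟩ := exists_coe h1
      obtain ⟨η, hη, he⟩ := over_coe' h'
      have := Pool.Agent.LibJac77.vp_injective ((over_infty h).symm.trans he)
      cases this
  · obtain ⟨x, rfl⟩ := exists_coe h0
    obtain ⟨η, hη, he⟩ := over_coe' h
    by_cases h1 : z' = infty
    · subst h1
      have := Pool.Agent.LibJac77.vp_injective ((over_infty h').symm.trans he)
      cases this
    · obtain ⟨y, rfl⟩ := exists_coe h1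
      rw [coe_inj']
      exact Place.val_unique (over_coe h) (over_coe h')

end Pool.Agent.LibOrb34
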