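import Pool.Agent.LibOrb34.Defs

/-!
Transport of the products of zero-cycles along an isomorphism of function fields.
-/

open scoped Classical

namespace Pool.Agent.LibOrb34

open Pool.Agent.LibBH2 Pool.Agent.LibQC8 Pool.Agent.LibLP34

variable {k F F' : Type} [Field k] [Field F] [Algebra k F] [Field F'] [Algebra k F']

/-- the place of `F` corresponding to a place of an isomorphic field -/
def pushPl (Φ : F' ≃ₐ[k] F) (a : Place k F') : Place k F where
  ord g := a.ord (Φ.symm g)
  ord_zero := by rw [map_zero, a.ord_zero]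
  ord_mul g h hg hh := by
    rw [map_mul, a.ord_mul _ _ ((_root_.map_ne_zero Φ.symm).2 hg) ((_root_.map_ne_zero Φ.symm).2 hh)]
  ord_add g h hg hh hgh := by
    rw [map_add]
    refine a.ord_add _ _ ((_root_.map_ne_zero Φ.symm).2 hg) ((_root_.map_ne_zero Φ.symm).2 hh) ?_
    rw [← map_add]
    exact (_root_.map_ne_zero Φ.symm).2 hgh
  ord_const c hc := by rw [Φ.symm.commutes, a.ord_const c hc]
  exists_uniformizer := by
    obtain ⟨t, ht⟩ := a.exists_uniformizer
    exact ⟨Φ t, by rw [Φ.symm_apply_apply, ht]⟩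

/-- transport of a point with values in a function field -/
def pushT (Φ : F' ≃ₐ[k] F) {H : Type} [Field H] [Algebra k H] :
    Place k F' ⊕ (F' →ₐ[k] H) → Place k F ⊕ (F →ₐ[k] H)
  | .inl b => .inl (pushPl Φ b)
  | .inr j => .inr (j.comp Φ.symm.toAlgHom)

theorem spec_push (Φ : F' ≃ₐ[k] F) {H : Type} [Field H] [Algebra k H] (v : Place k H)
    (T : Place k F' ⊕ (F' →ₐ[k] H)) (a : Place k F') (h : Spec v T a) :
    Spec v (pushT Φ T) (pushPl Φ a) := by
  rcases T with b | j
  · show pushPl Φ a = pushPl Φ b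
    rw [show a = b from h]
  · intro f hf
    exact h (Φ.symm f) hf

theorem isPush_push (Φ : F' ≃ₐ[k] F) {N : ℕ} {c : Multiset (Place k F') →₀ ℤ} (h : IsPush N c) :
    IsPush N (c.mapDomain (Multiset.map (pushPl Φ))) := by
  obtain ⟨H, _, _, T, φ, S, p, hH, hφ, hS, hp, rfl⟩ := h
  refine ⟨H, _, _, fun i => pushT Φ (T i), φ, S, fun v i => pushPl Φ (p v i), hH, hφ, hS,
    fun v hv i => spec_push Φ v _ _ (hp v hv i), ?_⟩
  rw [Finsupp.mapDomain_finsetSum]
  refine Finset.sum_congr rfl fun v _ => ?_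
  rw [Finsupp.mapDomain_single, Multiset.map_map]
  rfl

theorem rename_mono (Φ : F' ≃ₐ[k] F) (D : Multiset (Place k F')) :
    MvPolynomial.rename (pushPl Φ) (mono D) = mono (D.map (pushPl Φ)) := by
  rw [mono_eq, mono_eq, map_multiset_prod, Multiset.map_map, Multiset.map_map]
  congr 1
  refine Multiset.map_congr rfl fun a _ => ?_
  simp

theorem rename_ι (Φ : F' ≃ₐ[k] F) (c : Multiset (Place k F') →₀ ℤ) :
    MvPolynomial.rename (pushPl Φ) (ι c) = ι (c.mapDomain (Multiset.map (pushPl Φ))) := by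
  induction c using Finsupp.induction_linear with
  | zero => simp
  | add x y hx hy => rw [map_add, map_add, hx, hy, Finsupp.mapDomain_add, map_add]
  | single D n => rw [ι_single, map_smul, rename_mono, Finsupp.mapDomain_single, ι_single]

theorem rename_mem (Φ : F' ≃ₐ[k] F) (x : MvPolynomial (Place k F') ℚ) (hx : x ∈ relIdeal k F') :
    MvPolynomial.rename (pushPl Φ) x ∈ relIdeal k F := by
  have h1 : x ∈ relSpan k F' := hx
  show _ ∈ relSpan k F
  clear hx
  induction h1 using Submodule.span_induction with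
  | mem x h =>
    obtain ⟨c, ⟨N, hc⟩, rfl⟩ := h
    rw [rename_ι]
    exact Submodule.subset_span ⟨_, ⟨N, isPush_push Φ hc⟩, rfl⟩
  | zero => simp
  | add x y _ _ hx hy => rw [map_add]; exact add_mem hx hy
  | smul q x _ hx => rw [map_smul]; exact Submodule.smul_mem _ _ hx

/-- the ring homomorphism of the Chow rings of isomorphic fields -/
noncomputable def chMap (Φ : F' ≃ₐ[k] F) : Ch k F' →+* Ch k F :=
  Ideal.Quotient.lift (relIdeal k F')
    ((Ideal.Quotient.mk (relIdeal k F)).comp
      (MvPolynomial.rename (R := ℚ) (pushPl Φ)).toRingHom) fun x hx =>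
        Ideal.Quotient.eq_zero_iff_mem.2 (rename_mem Φ x hx)

theorem chMap_y (Φ : F' ≃ₐ[k] F) (a : Place k F') :
    chMap Φ (Pool.Agent.LibQC8.y a) = Pool.Agent.LibQC8.y (pushPl Φ a) := by
  rw [chMap, Pool.Agent.LibQC8.y, Ideal.Quotient.lift_mk]
  simp [Pool.Agent.LibQC8.y]

theorem vv_transport (Φ : F' ≃ₐ[k] F) (w a b : Place k F') (h : vv w a * vv w b = 0) :
    vv (pushPl Φ w) (pushPl Φ a) * vv (pushPl Φ w) (pushPl Φ b) = 0 := by
  have := congrArg (chMap Φ) h
  rwa [map_mul, map_zero, vv, vv, map_sub, map_sub, chMap_y, chMap_y, chMap_y] at this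

end Pool.Agent.LibOrb34
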