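import Pool.Agent.LibOrb34.R1
import Pool.Agent.LibOrb34.Base

/-!
Change of the model of a curve of genus two: a root of `f` is moved to infinity.
-/

open scoped Classical
open Polynomial
open OnePoint (infty)

namespace Pool.Agent.LibOrb34

open Pool.Agent.LibBH2 Pool.Agent.LibQC8 Pool.Agent.LibLP34 Pool.Agent.LibK4
open Pool.Agent.LibJac77 (Genus2 KC DCf)

variable {k : Type} [Field k] [CharZero k] [IsAlgClosed k]

omit [CharZero k] [IsAlgClosed k] in
theorem genus2_prod (Z : Finset k) (hZ : Z.card = 5) : Genus2 (∏ z ∈ Z, (X - C z)) where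
  monic := monic_prod_of_monic _ _ fun z _ => monic_X_sub_C z
  deg := by rw [natDegree_prod_of_monic _ _ fun z _ => monic_X_sub_C z]; simp [hZ]
  sqf := by
    apply Separable.squarefree
    exact separable_prod_X_sub_C_iff'.2 fun _ _ _ _ h => h

theorem exists_prod (f : k[X]) [Genus2 f] (b : k) (hb : f.eval b = 0) :
    ∃ E : Finset k, E.card = 4 ∧ b ∉ E ∧ f = (X - C b) * ∏ e ∈ E, (X - C e) := by
  have hf0 : f ≠ 0 := (Genus2.monic (f := f)).ne_zero
  have hsep : f.Separable := PerfectField.separable_iff_squarefree.2 (Genus2.sqf (f := f))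
  have hnd : f.roots.Nodup := nodup_roots hsep
  have hcard : f.roots.card = 5 := by
    rw [← Genus2.deg (f := f)]
    exact ((IsAlgClosed.splits f).natDegree_eq_card_roots).symm
  have hprod : f = ∏ z ∈ f.roots.toFinset, (X - C z) := by
    have h1 := (IsAlgClosed.splits f).eq_prod_roots
    rw [(Genus2.monic (f := f)).leadingCoeff, C_1, one_mul] at h1
    rw [Finset.prod_multiset_map_count]  at h1
    conv_lhs => rw [h1]
    refine Finset.prod_congr rfl fun z hz => ?_
    rw [Multiset.count_eq_one_of_mem hnd (Multiset.mem_toFinset.1 hz), pow_one]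
  have hbr : b ∈ f.roots.toFinset := by
    rw [Multiset.mem_toFinset, mem_roots hf0]
    exact hb
  refine ⟨f.roots.toFinset.erase b, ?_, Finset.notMem_erase _ _, ?_⟩
  · rw [Finset.card_erase_of_mem hbr, Multiset.toFinset_card_of_nodup hnd, hcard]
  · rw [Finset.mul_prod_erase _ (fun z => (X - C z : k[X])) hbr]
    exact hprod

omit [CharZero k] [IsAlgClosed k] in
theorem fac_aux {K : Type} [Field K] (s b e : K) (hs : s - b ≠ 0) (he : e - b ≠ 0) :
    (s - b)⁻¹ - (e - b)⁻¹ = (s - e) * (-(s - b)⁻¹ * (e - b)⁻¹) := by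
  field_simp
  ring

omit [CharZero k] [IsAlgClosed k] in
theorem key_aux {K : Type} [Field K] (s b κ w P : K) (hs : s - b ≠ 0) (hκ : κ ≠ 0)
    (hw : w ^ 2 = (s - b) * P) :
    (w * ((s - b) ^ 3)⁻¹ * κ⁻¹) ^ 2 = (s - b)⁻¹ * (P * ((-(s - b)⁻¹) ^ 4 * (κ ^ 2)⁻¹)) := by
  rw [mul_pow, mul_pow, hw]
  field_simp

omit [CharZero k] [IsAlgClosed k] in
theorem model_alg {K : Type} [Field K] [Algebra k K] (b κ : k) (E : Finset k) (hE : E.card = 4)
    (hne : ∀ e ∈ E, e - b ≠ 0) (hκ : κ ^ 2 = ∏ e ∈ E, (e - b)) (hκ0 : κ ≠ 0) (s w : K)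
    (hsb : s - algebraMap k K b ≠ 0)
    (hw : w ^ 2 = aeval s ((X - C b) * ∏ e ∈ E, (X - C e))) :
    (w * ((s - algebraMap k K b) ^ 3)⁻¹ * (algebraMap k K κ)⁻¹) ^ 2 =
      aeval (s - algebraMap k K b)⁻¹ (X * ∏ e ∈ E, (X - C (e - b)⁻¹)) := by
  have hκ' : algebraMap k K κ ≠ 0 := (_root_.map_ne_zero _).2 hκ0
  have hw2 : w ^ 2 = (s - algebraMap k K b) * ∏ e ∈ E, (s - algebraMap k K e) := by
    rw [hw, map_mul, map_prod]
    simp
  have hfac : ∀ e ∈ E, (s - algebraMap k K b)⁻¹ - algebraMap k K (e - b)⁻¹ =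
      (s - algebraMap k K e) * (-(s - algebraMap k K b)⁻¹ * algebraMap k K (e - b)⁻¹) := by
    intro e he
    have h1 : algebraMap k K (e - b) ≠ 0 := (_root_.map_ne_zero _).2 (hne e he)
    rw [map_inv₀]
    rw [map_sub] at h1 ⊢
    exact fac_aux _ _ _ hsb h1
  have h1 : aeval (s - algebraMap k K b)⁻¹ (X * ∏ e ∈ E, (X - C (e - b)⁻¹)) =
      (s - algebraMap k K b)⁻¹ *
        ∏ e ∈ E, ((s - algebraMap k K b)⁻¹ - algebraMap k K (e - b)⁻¹) := by
    rw [map_mul, map_prod, aeval_X]
    congr 1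
    refine Finset.prod_congr rfl fun e _ => ?_
    rw [map_sub, aeval_X, aeval_C]
  have h2 : ∏ e ∈ E, algebraMap k K (e - b)⁻¹ = ((algebraMap k K κ) ^ 2)⁻¹ := by
    rw [← map_prod, Finset.prod_inv_distrib, ← hκ, map_inv₀, map_pow]
  rw [h1, Finset.prod_congr rfl hfac, Finset.prod_mul_distrib, Finset.prod_mul_distrib,
    Finset.prod_const, hE, h2]
  exact key_aux _ _ _ _ _ hsb hκ' hw2

omit [CharZero k] [IsAlgClosed k] in
theorem surj_aux {K : Type} [Field K] [Algebra k K] (R : IntermediateField k K) (b κ : k)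
    (hκ0 : κ ≠ 0) (s w : K) (hsb : s - algebraMap k K b ≠ 0) (h1 : (s - algebraMap k K b)⁻¹ ∈ R)
    (h2 : w * ((s - algebraMap k K b) ^ 3)⁻¹ * (algebraMap k K κ)⁻¹ ∈ R) : s ∈ R ∧ w ∈ R := by
  have hκ' : algebraMap k K κ ≠ 0 := (_root_.map_ne_zero _).2 hκ0
  have hs1 : s ∈ R := by
    have h3 := add_mem (inv_mem h1) (R.algebraMap_mem b)
    rwa [inv_inv, sub_add_cancel] at h3
  refine ⟨hs1, ?_⟩
  have h3 : w = (w * ((s - algebraMap k K b) ^ 3)⁻¹ * (algebraMap k K κ)⁻¹) *
      ((s - algebraMap k K b) ^ 3 * algebraMap k K κ) := by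
    field_simp
  rw [h3]
  exact mul_mem h2 (mul_mem (pow_mem (sub_mem hs1 (R.algebraMap_mem b)) 3) (R.algebraMap_mem κ))

omit [CharZero k] [IsAlgClosed k] in
theorem aeval_mem_aux {K : Type} [Field K] [Algebra k K] (R : IntermediateField k K) (s : K)
    (hs : s ∈ R) (p : k[X]) : aeval s p ∈ R := by
  rw [aeval_eq_sum_range]
  exact sum_mem fun i _ => R.smul_mem (pow_mem hs i)

theorem exists_model (f : k[X]) [Genus2 f] (b : k) (hb : f.eval b = 0) :
    ∃ (f' : k[X]) (_ : Genus2 f') (g : GL (Fin 2) k) (Φ : KC f' ≃ₐ[k] KC f),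
      mob g ((b : k) : OnePoint k) = infty ∧ (∀ z, mob g z ∈ Br f' ↔ z ∈ Br f) ∧
      ∀ (v : Place k (KC f)) (z : OnePoint k), Over v z → Over (pushPl Φ.symm v) (mob g z) := by
  obtain ⟨E, hE, hbE, hf⟩ := exists_prod f b hb
  have hne : ∀ e ∈ E, e - b ≠ 0 := fun e he h => hbE (by rwa [← sub_eq_zero.1 h])
  set Z : Finset k := insert 0 (E.image fun e => (e - b)⁻¹) with hZ
  have h0Z : (0 : k) ∉ E.image fun e => (e - b)⁻¹ := by
    intro h
    obtain ⟨e, he, h⟩ := Finset.mem_image.1 h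
    exact hne e he (inv_eq_zero.1 h)
  have hinj : Set.InjOn (fun e => (e - b)⁻¹) (E : Set k) := by
    intro e _ e' _ h
    exact sub_left_injective (inv_injective h)
  have hcard : Z.card = 5 := by
    rw [hZ, Finset.card_insert_of_notMem h0Z, Finset.card_image_of_injOn hinj, hE]
  set f' : k[X] := ∏ z ∈ Z, (X - C z) with hf'
  have : Genus2 f' := genus2_prod Z hcard
  have hf'2 : f' = X * ∏ e ∈ E, (X - C (e - b)⁻¹) := by
    rw [hf', hZ, Finset.prod_insert h0Z, Finset.prod_image (fun e he e' he' h => hinj he he' h)]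
    simp
  obtain ⟨κ, hκ⟩ := IsAlgClosed.exists_pow_nat_eq (∏ e ∈ E, (e - b)) (n := 2) (by norm_num)
  have hκ0 : κ ≠ 0 := by
    intro h
    rw [h, zero_pow two_ne_zero] at hκ
    exact Finset.prod_ne_zero_iff.2 hne hκ.symm
  have hsb : (DCf f).s - algebraMap k (KC f) b ≠ 0 := (DCf f).s_sub_ne_zero b
  have hst : Transcendental k (DCf f).s := Pool.Agent.LibJac77.transcendental_ι (DCf f).ι
  have hs't : Transcendental k ((DCf f).s - algebraMap k (KC f) b)⁻¹ := by
    intro h
    apply hst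
    have h1 := h.inv.add (isAlgebraic_algebraMap b)
    rwa [inv_inv, sub_add_cancel] at h1
  have hw2 : (DCf f).w ^ 2 = aeval (DCf f).s ((X - C b) * ∏ e ∈ E, (X - C e)) := by
    rw [← hf]
    exact (DCf f).aeval_F
  have hw' := model_alg b κ E hE hne hκ hκ0 _ _ hsb hw2
  rw [← hf'2] at hw'
  obtain ⟨j, hjs, hjw⟩ := exists_map f' hs't hw'
  have hsurj : Function.Surjective j := by
    obtain ⟨hs1, hw1⟩ := surj_aux j.fieldRange b κ hκ0 _ _ hsb ⟨_, hjs⟩ ⟨_, hjw⟩
    have hι : ∀ a : RatFunc k, (DCf f).ι a ∈ j.fieldRange := by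
      intro a
      rw [← RatFunc.num_div_denom a, map_div₀, (DCf f).ι_poly, (DCf f).ι_poly]
      exact div_mem (aeval_mem_aux _ _ hs1 _) (aeval_mem_aux _ _ hs1 _)
    intro g
    obtain ⟨a, b', rfl⟩ := (DCf f).gen g
    obtain ⟨u, hu⟩ := add_mem (hι a) (mul_mem (hι b') hw1)
    exact ⟨u, hu⟩
  let Φ : KC f' ≃ₐ[k] KC f := AlgEquiv.ofBijective j ⟨j.injective, hsurj⟩
  have hΦs : Φ (algebraMap (RatFunc k) (KC f') RatFunc.X) =
      ((DCf f).s - algebraMap k (KC f) b)⁻¹ := hjs
  let g : GL (Fin 2) k := Matrix.GeneralLinearGroup.mkOfDetNeZero !![0, 1; 1, -b] (by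
    rw [Matrix.det_fin_two_of]; norm_num)
  have g00 : g 0 0 = 0 := rfl
  have g01 : g 0 1 = 1 := rfl
  have g10 : g 1 0 = 1 := rfl
  have g11 : g 1 1 = -b := rfl
  have hginf : mob g infty = ((0 : k) : OnePoint k) := by
    rw [mob_infty, g00, g10, if_neg one_ne_zero, zero_div]
  have hgb : mob g ((b : k) : OnePoint k) = infty := by
    rw [mob_coe, g10, g11, if_pos (by ring)]
  have hgx : ∀ x : k, x ≠ b → mob g ((x : k) : OnePoint k) = (((x - b)⁻¹ : k) : OnePoint k) := by
    intro x hx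
    have h1 : (1 : k) * x + -b ≠ 0 := by
      intro h
      exact hx (by linear_combination h)
    rw [mob_coe, g00, g01, g10, g11, if_neg h1]
    congr 1
    rw [zero_mul, zero_add, one_mul, ← sub_eq_add_neg, one_div]
  have hroot' : ∀ x : k, f'.eval x = 0 ↔ x = 0 ∨ ∃ e ∈ E, x = (e - b)⁻¹ := by
    intro x
    rw [hf'2, eval_mul, eval_X, eval_prod, mul_eq_zero, Finset.prod_eq_zero_iff]
    refine or_congr Iff.rfl ⟨?_, ?_⟩
    · rintro ⟨e, he, h⟩
      rw [eval_sub, eval_X, eval_C] at h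
      exact ⟨e, he, sub_eq_zero.1 h⟩
    · rintro ⟨e, he, h⟩
      exact ⟨e, he, by rw [eval_sub, eval_X, eval_C, h, sub_self]⟩
  have hroot : ∀ x : k, f.eval x = 0 ↔ x = b ∨ x ∈ E := by
    intro x
    rw [hf, eval_mul, eval_sub, eval_X, eval_C, eval_prod, mul_eq_zero, Finset.prod_eq_zero_iff]
    refine or_congr sub_eq_zero ⟨?_, ?_⟩
    · rintro ⟨e, he, h⟩
      rw [eval_sub, eval_X, eval_C] at h
      rwa [sub_eq_zero.1 h]
    · intro h
      exact ⟨x, h, by rw [eval_sub, eval_X, eval_C, sub_self]⟩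
  refine ⟨f', inferInstance, g, Φ, hgb, ?_, ?_⟩
  · intro z
    by_cases hz : z = infty
    · subst hz
      rw [hginf]
      exact ⟨fun _ => mem_Br_infty f, fun _ => mem_Br_coe.2 ((hroot' 0).2 (Or.inl rfl))⟩
    · obtain ⟨x, rfl⟩ := exists_coe hz
      by_cases hx : x = b
      · subst hx
        rw [hgb]
        exact ⟨fun _ => mem_Br_coe.2 ((hroot _).2 (Or.inl rfl)), fun _ => mem_Br_infty f'⟩
      · rw [hgx x hx, mem_Br_coe, mem_Br_coe, hroot', hroot]
        constructor
        · rintro (h | ⟨e, he, h⟩)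
          · exact absurd (inv_eq_zero.1 h) (sub_ne_zero.2 hx)
          · right
            rwa [show x = e from sub_left_injective (inv_injective h)]
        · rintro (h | h)
          · exact absurd h hx
          · exact Or.inr ⟨x, h, rfl⟩
  · intro v z hvz
    have hord : ∀ u, (pushPl Φ.symm v).ord u = v.ord (Φ u) := fun u => rfl
    by_cases hz : z = infty
    · subst hz
      rw [hginf]
      right
      refine ⟨0, rfl, ?_⟩
      have hs : v.ord (DCf f).s < 0 := by
        rcases hvz with ⟨_, h⟩ | ⟨x, h, _⟩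
        · exact h
        · exact absurd h.symm (OnePoint.coe_ne_infty x)
      have h1 : v.ord ((DCf f).s - algebraMap k (KC f) b) < 0 := by
        by_cases hb0 : b = 0
        · rw [hb0, map_zero, sub_zero]; exact hs
        · have hs0 : (DCf f).s ≠ 0 := by
            intro h
            rw [h, v.ord_zero] at hs
            exact lt_irrefl _ hs
          have h2 : v.ord (-algebraMap k (KC f) b) = 0 := by rw [v.ord_neg, v.ord_const b hb0]
          have h3 := v.ord_add_of_lt hs0 (g := -algebraMap k (KC f) b)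
            (neg_ne_zero.2 ((_root_.map_ne_zero _).2 hb0)) (by rw [h2]; exact hs)
          rw [sub_eq_add_neg, h3.2]
          exact hs
      right
      rw [hord, map_sub, hΦs, Φ.commutes, map_zero, sub_zero, v.ord_inv]
      omega
    · obtain ⟨x, rfl⟩ := exists_coe hz
      have hvx := over_coe hvz
      by_cases hx : x = b
      · subst hx
        rw [hgb]
        left
        refine ⟨rfl, ?_⟩
        rw [hord, hΦs, v.ord_inv]
        have : 0 < v.ord ((DCf f).s - algebraMap k (KC f) x) := hvx.resolve_left hsb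
        omega
      · rw [hgx x hx]
        right
        refine ⟨_, rfl, ?_⟩
        have h1 : v.Zer ((DCf f).s - algebraMap k (KC f) b - algebraMap k (KC f) (x - b)) := by
          have : (DCf f).s - algebraMap k (KC f) b - algebraMap k (KC f) (x - b) = (DCf f).s - algebraMap k (KC f) x := by
            rw [map_sub]; ring
          rw [this]
          exact hvx
        have h2 := Place.val_inv h1 (sub_ne_zero.2 hx)
        have h3 : Φ (algebraMap (RatFunc k) (KC f') RatFunc.X - algebraMap k (KC f') (x - b)⁻¹) =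
            ((DCf f).s - algebraMap k (KC f) b)⁻¹ - algebraMap k (KC f) (x - b)⁻¹ := by
          rw [map_sub, hΦs, Φ.commutes]
        rcases h2 with h2 | h2
        · left
          rw [← h3] at h2
          exact (map_eq_zero_iff Φ Φ.injective).1 h2
        · right
          rw [hord, h3]
          exact h2

end Pool.Agent.LibOrb34
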